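import Pool.Agent.R638.A5.Growth
import Pool.Agent.R638.A5.Dense

set_option autoImplicit false

/-!
# A finitely generated dense subgroup of subexponential growth in the iterated wreath product of `A₅`

The words over `X = Fin 5` are the vertices of the tree. `W` (in `Pool/Agent/R638/A5/Dense.lean`) is the
group of automorphisms of the tree all of whose local permutations are even, that is, the infinite
iterated wreath product of `A₅`.

The subgroup is generated by the two automorphisms `a` and `b` of orders 2 and 3 with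
`a (0 w) = 0 a(w)`, `a (x w) = α(x) w` for `x ≠ 0`, and `b (2 w) = 2 b(w)`, `b (x w) = β(x) w` for
`x ≠ 2`, where `α = (1 2)(3 4)` and `β = (0 1 3)`.
-/

namespace Pool.Agent.Results.MP_092669_al.DenseSubexponential

open Pool.Agent.R638.A5 Filter Topology

/-- The growth function: the number of elements of word length at most `r` with respect to `S ∪ S⁻¹`. -/
noncomputable def growth {Γ : Type} [Group Γ] (S : Set Γ) (r : ℕ) : ℕ :=
  Nat.card {g : Γ // ∃ l : List Γ, l.length ≤ r ∧ (∀ x ∈ l, x ∈ S ∨ x⁻¹ ∈ S) ∧ l.prod = g}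

/-- Subexponential growth of a finitely generated group: `γ_S(r)^(1/r) → 1` for every finite generating
set `S`. -/
def SubexponentialGrowth (Γ : Type) [Group Γ] : Prop :=
  ∀ S : Set Γ, S.Finite → Subgroup.closure S = ⊤ →
    Tendsto (fun r : ℕ => (growth S r : ℝ) ^ (1 / (r : ℝ))) atTop (𝓝 1)

/-- A subgroup of `W` is dense if it maps onto the group of permutations of `X ^ n` induced by `W`, for
every `n`. -/
def DenseInW (Γ : Subgroup P) : Prop :=
  Γ ≤ W ∧ ∀ h ∈ W, ∀ n : ℕ, ∃ g ∈ Γ, ∀ w : List X, w.length = n → g w = h w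

theorem length_invw (w : List Lt) : (invw w).length = w.length := by simp [invw]

/-- The growth function is bounded by the cardinality of the balls `Bn`. -/
theorem growth_le (S : Set Gam) (hS : S.Finite) : ∃ K : ℕ, 1 ≤ K ∧ ∀ r, growth S r ≤ (Bn (K * r)).card := by
  classical
  choose w hw using fun x : Gam => exists_word x.2
  obtain ⟨K, hK⟩ := (hS.image fun x => (w x).length).bddAbove
  refine ⟨K + 1, by omega, fun r => ?_⟩
  have key : ∀ l : List Gam, (∀ x ∈ l, x ∈ S ∨ x⁻¹ ∈ S) →
      ∃ v : List Lt, v.length ≤ (K + 1) * l.length ∧ ev v = (l.prod : Gam) := by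
    intro l
    induction l with
    | nil => exact fun _ => ⟨[], by simp, rfl⟩
    | cons x l ih =>
      intro hl
      obtain ⟨v, hv, h1⟩ := ih fun y hy => hl y (by simp [hy])
      rcases hl x (by simp) with h | h
      · refine ⟨w x ++ v, ?_, ?_⟩
        · have := hK (Set.mem_image_of_mem _ h)
          rw [List.length_append, List.length_cons, Nat.mul_succ]
          omega
        · rw [ev_append, hw, h1, List.prod_cons]
          rfl
      · refine ⟨invw (w x⁻¹) ++ v, ?_, ?_⟩
        · have := hK (Set.mem_image_of_mem _ h)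
          rw [List.length_append, List.length_cons, Nat.mul_succ, length_invw]
          omega
        · rw [ev_append, ev_invw, hw, h1, List.prod_cons]
          simp
  have hmem : ∀ g : {g : Gam // ∃ l : List Gam, l.length ≤ r ∧ (∀ x ∈ l, x ∈ S ∨ x⁻¹ ∈ S) ∧
      l.prod = g}, ((g.1 : Gam) : P) ∈ Bn ((K + 1) * r) := by
    rintro ⟨g, l, h1, h2, rfl⟩
    obtain ⟨v, hv, h3⟩ := key l h2
    rw [mem_Bn]
    exact ⟨v, hv.trans (Nat.mul_le_mul_left _ h1), h3⟩
  have h := Nat.card_le_card_of_injective
    (fun g => (⟨((g.1 : Gam) : P), hmem g⟩ : Bn ((K + 1) * r)))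
    (by
      intro g h e
      have e' : ((g.1 : Gam) : P) = ((h.1 : Gam) : P) :=
        congrArg (fun t : Bn ((K + 1) * r) => (t : P)) e
      exact Subtype.ext (Subtype.ext e'))
  rw [Nat.card_eq_fintype_card (α := Bn ((K + 1) * r)), Fintype.card_coe] at h
  exact h

theorem growth_pos (S : Set Gam) (hS : S.Finite) (r : ℕ) : 1 ≤ growth S r := by
  classical
  obtain ⟨K, -, h⟩ := growth_le S hS
  have hfin : Finite {g : Gam // ∃ l : List Gam, l.length ≤ r ∧ (∀ x ∈ l, x ∈ S ∨ x⁻¹ ∈ S) ∧
      l.prod = g} := by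
    have : ∀ s : Set Gam, s.Finite → ∀ n, {g : Gam | ∃ l : List Gam, l.length ≤ n ∧
        (∀ x ∈ l, x ∈ s ∨ x⁻¹ ∈ s) ∧ l.prod = g}.Finite := by
      intro s hs n
      have hs2 : (s ∪ s⁻¹).Finite := hs.union hs.inv
      have hs3 : Finite ↥(s ∪ s⁻¹) := hs2.to_subtype
      refine ((List.finite_length_le ↥(s ∪ s⁻¹) n).image
        (fun l => (l.map Subtype.val).prod)).subset ?_
      rintro g ⟨l, h1, h2, rfl⟩
      have h3 : ∀ x ∈ l, x ∈ s ∪ s⁻¹ := by
        intro x hx
        rcases h2 x hx with h | h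
        · exact Or.inl h
        · exact Or.inr (Set.mem_inv.2 h)
      refine ⟨l.attach.map (fun x => ⟨x.1, h3 x.1 x.2⟩), ?_, ?_⟩
      · simpa using h1
      · have h4 : (l.attach.map fun x => (⟨x.1, h3 x.1 x.2⟩ : ↥(s ∪ s⁻¹))).map Subtype.val = l := by
          rw [List.map_map]
          exact List.attach_map_subtype_val l
        show (List.map Subtype.val _).prod = _
        rw [h4]
    exact (this S hS r).to_subtype
  have hne : Nonempty {g : Gam // ∃ l : List Gam, l.length ≤ r ∧ (∀ x ∈ l, x ∈ S ∨ x⁻¹ ∈ S) ∧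
      l.prod = g} := ⟨⟨1, [], by simp, by simp, rfl⟩⟩
  exact Nat.card_pos

theorem subexp : SubexponentialGrowth Gam := by
  intro S hS _
  obtain ⟨K, hK, hg⟩ := growth_le S hS
  rw [Metric.tendsto_atTop]
  intro ε hε
  have hK0 : (0 : ℝ) < K := by exact_mod_cast hK
  set μ : ℝ := (1 + ε / 4) ^ (1 / (K : ℝ)) with hμ
  have hμ1 : 1 < μ := Real.one_lt_rpow (by linarith) (by positivity)
  have hμK : μ ^ K = 1 + ε / 4 := by
    rw [hμ, ← Real.rpow_natCast, ← Real.rpow_mul (by linarith), one_div_mul_cancel hK0.ne',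
      Real.rpow_one]
  obtain ⟨-, C, hC, hN⟩ := Ex_all μ hμ1
  -- `C (1 + ε/4)^r ≤ (1 + ε/2)^r` for large `r`
  have hq : 1 < (1 + ε / 2) / (1 + ε / 4) := by
    rw [one_lt_div (by linarith)]
    linarith
  obtain ⟨R, hR⟩ := (tendsto_pow_atTop_atTop_of_one_lt hq).eventually_ge_atTop C |>.exists_forall_of_atTop
  refine ⟨max R 1, fun r hr => ?_⟩
  have hr1 : 1 ≤ r := le_trans (le_max_right _ _) hr
  have hrR : R ≤ r := le_trans (le_max_left _ _) hr
  have hr0 : (0 : ℝ) < r := by exact_mod_cast hr1
  have h1 : (growth S r : ℝ) ≤ (1 + ε / 2) ^ r := by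
    have h2 : (growth S r : ℝ) ≤ C * μ ^ (K * r) :=
      le_trans (by exact_mod_cast hg r) (hN (K * r))
    rw [pow_mul, hμK] at h2
    have h3 := hR r hrR
    rw [div_pow, le_div_iff₀ (by positivity)] at h3
    exact h2.trans h3
  have h4 : (1 : ℝ) ≤ growth S r := by exact_mod_cast growth_pos S hS r
  have h5 : (1 : ℝ) ≤ (growth S r : ℝ) ^ (1 / (r : ℝ)) := Real.one_le_rpow h4 (by positivity)
  have h6 : (growth S r : ℝ) ^ (1 / (r : ℝ)) ≤ 1 + ε / 2 := by
    calc (growth S r : ℝ) ^ (1 / (r : ℝ)) ≤ ((1 + ε / 2) ^ r) ^ (1 / (r : ℝ)) :=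
          Real.rpow_le_rpow (by linarith) h1 (by positivity)
      _ = 1 + ε / 2 := by
          rw [← Real.rpow_natCast, ← Real.rpow_mul (by linarith), mul_one_div_cancel hr0.ne',
            Real.rpow_one]
  rw [Real.dist_eq, abs_of_nonneg (by linarith)]
  linarith

/-- **Theorem.** The infinite iterated wreath product `W` of `A₅` (acting naturally on five points)
contains a finitely generated dense subgroup of subexponential growth; moreover it can be generated by
an element of order `2` and an element of order `3`. -/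
theorem result : ∃ Γ : Subgroup P, DenseInW Γ ∧ SubexponentialGrowth Γ ∧
    ∃ a b : P, orderOf a = 2 ∧ orderOf b = 3 ∧ Γ = Subgroup.closure {a, b} := by
  refine ⟨Gam, ⟨Gam_le_W, fun h hh n => dense hh n⟩, subexp, gen .A, gen .B, ?_, ?_, rfl⟩
  · apply orderOf_eq_prime
    · rw [pow_two]; exact AA
    · intro h
      have := congrArg (fun g : P => g [1]) h
      revert this
      decide
  · apply orderOf_eq_prime
    · rw [pow_succ, pow_two, BB, CB]
    · intro h
      have := congrArg (fun g : P => g [1]) h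
      revert this
      decide

end Pool.Agent.Results.MP_092669_al.DenseSubexponential
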